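import Pool.Agent.Helper4.It.Goals
import Pool.Agent.Helper9.Comp.G1

/-!
# Packet T6: existence of the continuous extension, twisted
-/

namespace Mono

namespace It

namespace T6

open Finset Filter Topology Mono.Comp
open Mono.Comp.G1 (exists_equiv nodes ddc_eq eventually_pos gcd_const exists_fan)

variable {n k : ℕ}

/-- The value of the extension given by a chart. -/
noncomputable def Val (e₀ : ℕ) (A : Finset (Fin k → ℤ)) (s : ℝ) (blk : Fin n → Fin k)
    (N : Fin n → ℕ) (T : Fan n) (ρ : Fin n → ℝ) : ℝ :=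
  (∏ j, (N j : ℝ)) * ((βT e₀ * ∏ j, ((N j : ℝ) * ρ j)⁻¹ -
    αT e₀ s * ZrealT e₀ (fun j => (N j : ℝ) * ρ j) (A.image (lift blk N)) T s) / γT e₀ s)

theorem gpos (e₀ : ℕ) {s : ℝ} (hs : 0 < s) : 0 < γT e₀ s := by
  unfold γT
  split_ifs
  · exact hs
  · exact one_pos

theorem val_iff (e₀ : ℕ) {A : Finset (Fin k → ℤ)} {s : ℝ} (hs : 0 < s) {blk : Fin n → Fin k}
    {N : Fin n → ℕ} (hN : ∀ j, 0 < N j) {T : Fan n} {ρ : Fin n → ℝ} (v : ℝ) :
    αT e₀ s * ZrealT e₀ (fun j => (N j : ℝ) * ρ j) (A.image (lift blk N)) T s =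
      βT e₀ * ∏ j, ((N j : ℝ) * ρ j)⁻¹ - γT e₀ s * ((∏ j, (N j : ℝ)⁻¹) * v) ↔
        v = Val e₀ A s blk N T ρ := by
  have hg := (gpos e₀ hs).ne'
  have hP : (∏ j, (N j : ℝ)) ≠ 0 := by
    rw [Finset.prod_ne_zero_iff]
    intro j _
    exact_mod_cast (hN j).ne'
  have hQ : (∏ j, (N j : ℝ)⁻¹) = (∏ j, (N j : ℝ))⁻¹ := by rw [Finset.prod_inv_distrib]
  rw [Val, hQ]
  generalize (∏ j, (N j : ℝ)) = P at hP ⊢
  generalize αT e₀ s * ZrealT e₀ (fun j => (N j : ℝ) * ρ j) (A.image (lift blk N)) T s = R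
  generalize βT e₀ * ∏ j, ((N j : ℝ) * ρ j)⁻¹ = W
  generalize γT e₀ s = s at hg ⊢
  constructor
  · intro h
    have h1 : W - R = s * (P⁻¹ * v) := by linarith
    rw [h1]
    field_simp
  · rintro rfl
    field_simp
    ring

theorem tendsto_val (h3 : ZrealContT) (e₀ : ℕ) {A : Finset (Fin k → ℤ)} (hA : A.Nonempty)
    (hA0 : ∀ v ∈ A, ∀ i, 0 ≤ v i) {s : ℝ} (hs : 0 < s) (blk : Fin n → Fin k) (N : Fin n → ℕ)
    (hN : ∀ j, 0 < N j) (T : Fan n) (ρ θ : Fin n → ℝ) (hρ : ∀ j, 0 < ρ j) :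
    Tendsto (fun ε : ℝ => Val e₀ A s blk N T (ρ + ε • θ)) (𝓝[>] 0) (𝓝 (Val e₀ A s blk N T ρ)) := by
  classical
  unfold Val
  have hNr : ∀ j, (0:ℝ) < N j := fun j => by exact_mod_cast hN j
  have t1 := h3 n e₀ (fun j => (N j : ℝ) * ρ j) (fun j => (N j : ℝ) * θ j) (A.image (lift blk N)) T
    (fun j => mul_pos (hNr j) (hρ j)) (hA.image _)
    (by
      intro v hv i
      obtain ⟨u, hu, rfl⟩ := Finset.mem_image.1 hv
      exact mul_nonneg (by positivity) (hA0 u hu _)) s hs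
  have e1 : ∀ ε : ℝ, ((fun j => (N j : ℝ) * ρ j) + ε • (fun j => (N j : ℝ) * θ j) : Fin n → ℝ) =
      fun j => (N j : ℝ) * (ρ + ε • θ) j := by
    intro ε
    funext j
    simp only [Pi.add_apply, Pi.smul_apply, smul_eq_mul]
    ring
  simp only [e1] at t1
  refine Tendsto.const_mul _ ((Tendsto.sub ?_ (t1.const_mul _)).div_const _)
  refine Tendsto.const_mul _ (tendsto_finset_prod _ (fun j _ => ?_))
  refine Tendsto.inv₀ ?_ (mul_pos (hNr j) (hρ j)).ne'
  refine Tendsto.const_mul _ ?_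
  have : Tendsto (fun ε : ℝ => (ρ + ε • θ) j) (𝓝 0) (𝓝 (ρ j)) := by
    have hcont : Continuous (fun ε : ℝ => (ρ + ε • θ) j) := by
      simp only [Pi.add_apply, Pi.smul_apply, smul_eq_mul]
      fun_prop
    have := hcont.tendsto 0
    simpa using this
  exact this.mono_left nhdsWithin_le_nhds

/-- The value of a chart at generic nodes. -/
theorem val_generic (h1 : ChartFormulaT) {e₀ : ℕ} (he₀ : 0 < e₀) {A Z : Finset (Fin k → ℤ)} {Φ : Fan k} (hk : 0 < k)
    (hT : Tri A Z Φ) {D : Fin k → ℕ} {s : ℝ} (hs : 0 < s) {blk : Fin n → Fin k} {N : Fin n → ℕ}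
    (hb : Function.Surjective blk) (hN : ∀ j, 0 < N j) (hD : ∀ i, blkGcd blk N i = D i)
    {T : Fan n} (hAd : Adapted (A.image (lift blk N)) T) {ρ : Fin n → ℝ} (hρ : ∀ j, 0 < ρ j)
    (hg : GenR Φ blk ρ) :
    Val e₀ A s blk N T ρ = DDS (nodes blk ρ) (WR Φ (vT e₀ D) Z s) := by
  have h := h1 n k A Z Φ hk hT blk N hb hN T hAd e₀ he₀ s hs ρ hρ hg
  rw [val_iff e₀ hs hN] at h
  have hD' : blkGcd blk N = D := funext hD
  rw [← h, hD', ddc_eq blk ρ hg.2]

/-- Two charts with the same nodes have the same value. -/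
theorem key (h1 : ChartFormulaT) (h2 : GenDir) (h3 : ZrealContT) {e₀ : ℕ} (he₀ : 0 < e₀)
    {A Z : Finset (Fin k → ℤ)}
    {Φ : Fan k} (hk : 0 < k) (hT : Tri A Z Φ) {D : Fin k → ℕ} {s : ℝ} (hs : 0 < s) {n' : ℕ}
    {blk : Fin n → Fin k} {N : Fin n → ℕ}
    (hb : Function.Surjective blk) (hN : ∀ j, 0 < N j) (hD : ∀ i, blkGcd blk N i = D i)
    {T : Fan n} (hAd : Adapted (A.image (lift blk N)) T) {ρ : Fin n → ℝ} (hρ : ∀ j, 0 < ρ j)
    {blk' : Fin n' → Fin k} {N' : Fin n' → ℕ}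
    (hb' : Function.Surjective blk') (hN' : ∀ j, 0 < N' j) (hD' : ∀ i, blkGcd blk' N' i = D i)
    {T' : Fan n'} (hAd' : Adapted (A.image (lift blk' N')) T') {ρ' : Fin n' → ℝ}
    (hρ' : ∀ j, 0 < ρ' j) (hms : ms blk ρ = ms blk' ρ') :
    Val e₀ A s blk N T ρ = Val e₀ A s blk' N' T' ρ' := by
  classical
  obtain ⟨e, he⟩ := exists_equiv hms
  obtain ⟨θ, -, hθ⟩ := h2 n k Φ blk ρ hb
  set θ' : Fin n' → ℝ := fun j => θ (e.symm j) with hθ'
  have hA := hT.1
  have hA0 := hT.2.1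
  have t1 := tendsto_val h3 e₀ hA hA0 hs blk N hN T ρ θ hρ
  have t2 := tendsto_val h3 e₀ hA hA0 hs blk' N' hN' T' ρ' θ' hρ'
  have hrel : ∀ ε : ℝ, ∀ j, (ρ' + ε • θ') (e j) = (ρ + ε • θ) j := by
    intro ε j
    simp only [Pi.add_apply, Pi.smul_apply, smul_eq_mul, hθ', Equiv.symm_apply_apply,
      (he j).2]
  have hev : ∀ᶠ ε : ℝ in 𝓝[>] 0,
      Val e₀ A s blk N T (ρ + ε • θ) = Val e₀ A s blk' N' T' (ρ' + ε • θ') := by
    filter_upwards [hθ, eventually_pos ρ θ hρ, eventually_pos ρ' θ' hρ'] with ε g1 g2 g3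
    have g4 : GenR Φ blk' (ρ' + ε • θ') := by
      constructor
      · intro c hc
        have h4 := g1.1 (fun i => e.symm (c i))
          (by
            rw [sel, Finset.mem_filter]
            refine ⟨Finset.mem_univ _, fun i => ?_⟩
            have h5 := (he (e.symm (c i))).1
            rw [Equiv.apply_symm_apply] at h5
            rw [← h5]
            exact (Finset.mem_filter.1 hc).2 i)
        have h6 : (fun i => (ρ' + ε • θ') (c i)) = fun i => (ρ + ε • θ) (e.symm (c i)) := by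
          funext i
          rw [← hrel, Equiv.apply_symm_apply]
        rw [h6]
        exact h4
      · intro j j' hjj hbb
        have h5 := (he (e.symm j)).1
        have h6 := (he (e.symm j')).1
        rw [Equiv.apply_symm_apply] at h5 h6
        have h7 := g1.2 (e.symm j) (e.symm j') (fun h => hjj (e.symm.injective h))
          (by rw [← h5, ← h6, hbb])
        rw [← hrel, ← hrel, Equiv.apply_symm_apply, Equiv.apply_symm_apply] at h7
        exact h7
    rw [val_generic h1 he₀ hk hT hs hb hN hD hAd g2 g1,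
      val_generic h1 he₀ hk hT hs hb' hN' hD' hAd' g3 g4]
    congr 1
    funext i
    ext x
    simp only [nodes, Finset.mem_image, Finset.mem_filter, Finset.mem_univ, true_and]
    constructor
    · rintro ⟨j, hj, rfl⟩
      exact ⟨e j, by rw [(he j).1, hj], hrel ε j⟩
    · rintro ⟨j, hj, rfl⟩
      refine ⟨e.symm j, ?_, ?_⟩
      · have h5 := (he (e.symm j)).1
        rw [Equiv.apply_symm_apply] at h5
        rw [← h5, hj]
      · rw [← hrel, Equiv.apply_symm_apply]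
  exact tendsto_nhds_unique (t1.congr' hev) t2

/-- `v` is the value of a chart with nodes `M`. -/
def IsVal (e₀ : ℕ) (A : Finset (Fin k → ℤ)) (D : Fin k → ℕ) (s : ℝ) (M : Fin k → Multiset ℝ) (v : ℝ) :
    Prop :=
  ∃ (n : ℕ) (blk : Fin n → Fin k) (N : Fin n → ℕ) (T : Fan n) (ρ : Fin n → ℝ),
    Function.Surjective blk ∧ (∀ j, 0 < N j) ∧ (∀ i, blkGcd blk N i = D i) ∧
    Adapted (A.image (lift blk N)) T ∧ (∀ j, 0 < ρ j) ∧ ms blk ρ = M ∧
    v = Val e₀ A s blk N T ρ

end T6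

open Finset Filter Topology Mono.Comp

theorem extExistsT (h1 : ChartFormulaT) (h2 : GenDir) (h3 : ZrealContT) (h4 : DualFan) :
    ExtExistsT := by
  classical
  intro k A Z Φ hk hT e₀ he₀ D hD s hs
  have hA := hT.1
  have hA0 := hT.2.1
  have huniq : ∀ M v v', T6.IsVal e₀ A D s M v → T6.IsVal e₀ A D s M v' → v = v' := by
    rintro M v v' ⟨n, blk, N, T, ρ, a1, a2, a3, a4, a5, a6, rfl⟩
      ⟨n', blk', N', T', ρ', b1, b2, b3, b4, b5, b6, rfl⟩
    exact T6.key h1 h2 h3 he₀ hk hT hs a1 a2 a3 a4 a5 b1 b2 b3 b4 b5 (a6.trans b6.symm)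
  set F : (Fin k → Multiset ℝ) → ℝ :=
    fun M => if h : ∃ v, T6.IsVal e₀ A D s M v then h.choose else 0 with hF
  have hFv : ∀ M v, T6.IsVal e₀ A D s M v → F M = v := by
    intro M v hv
    have hex : ∃ v, T6.IsVal e₀ A D s M v := ⟨v, hv⟩
    simp only [hF, hex, dif_pos]
    exact huniq M _ _ hex.choose_spec hv
  refine ⟨F, ⟨?_, ?_⟩, ?_⟩
  · intro n blk ρ θ hb hρ
    obtain ⟨T, hAd⟩ := G1.exists_fan h4 hA hA0 blk (fun j => D (blk j))
    have t := T6.tendsto_val h3 e₀ hA hA0 hs blk (fun j => D (blk j)) (fun j => hD _) T ρ θ hρ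
    rw [hFv (ms blk ρ) _ ⟨n, blk, _, T, ρ, hb, fun j => hD _, G1.gcd_const blk hb D, hAd, hρ,
      rfl, rfl⟩]
    refine t.congr' ?_
    filter_upwards [G1.eventually_pos ρ θ hρ] with ε hε
    exact (hFv _ _ ⟨n, blk, _, T, ρ + ε • θ, hb, fun j => hD _, G1.gcd_const blk hb D, hAd, hε,
      rfl, rfl⟩).symm
  · intro S hS hpos hgen
    -- a chart with these nodes
    let φ : Fin (Fintype.card (Σ i, S i)) ≃ (Σ i, S i) := (Fintype.equivFin _).symm
    set n := Fintype.card (Σ i, S i) with hn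
    set blk : Fin n → Fin k := fun j => (φ j).1 with hblk
    set ρ : Fin n → ℝ := fun j => ((φ j).2 : ℝ) with hρdef
    have hmem : ∀ j, ρ j ∈ S (blk j) := fun j => (φ j).2.2
    have hb : Function.Surjective blk := by
      intro i
      obtain ⟨x, hx⟩ := hS i
      refine ⟨φ.symm ⟨i, x, hx⟩, ?_⟩
      simp only [hblk, Equiv.apply_symm_apply]
    have hρ : ∀ j, 0 < ρ j := fun j => hpos _ _ (hmem j)
    have hdist : ∀ j j', blk j = blk j' → ρ j = ρ j' → j = j' := by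
      intro j j' e1 e2
      apply φ.injective
      have : ∀ (a b : Σ i, S i), a.1 = b.1 → ((a.2 : ℝ) = b.2) → a = b := by
        rintro ⟨i, x, hx⟩ ⟨i', x', hx'⟩ h h'
        simp only at h h'
        subst h
        subst h'
        rfl
      exact this _ _ e1 e2
    have hnodes : G1.nodes blk ρ = S := by
      funext i
      ext x
      simp only [G1.nodes, Finset.mem_image, Finset.mem_filter, Finset.mem_univ, true_and]
      constructor
      · rintro ⟨j, rfl, rfl⟩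
        exact hmem j
      · intro hx
        refine ⟨φ.symm ⟨i, x, hx⟩, ?_, ?_⟩
        · simp only [hblk, Equiv.apply_symm_apply]
        · exact congrArg (fun a : (Σ i, S i) => (a.2 : ℝ)) (φ.apply_symm_apply ⟨i, x, hx⟩)
    have hms : ms blk ρ = fun i => (S i).val := by
      funext i
      rw [← hnodes]
      simp only [ms, G1.nodes]
      rw [Finset.image_val_of_injOn]
      intro j hj j' hj' e
      simp only [Finset.coe_filter, Finset.mem_univ, true_and, Set.mem_setOf_eq] at hj hj'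
      exact hdist j j' (by rw [hj, hj']) e
    have hgenR : GenR Φ blk ρ := by
      constructor
      · intro c hc
        refine hgen _ ?_
        rw [Fintype.mem_piFinset]
        intro i
        have h5 := hmem (c i)
        rwa [(Finset.mem_filter.1 hc).2 i] at h5
      · intro j j' hjj hbb hρρ
        exact hjj (hdist j j' hbb hρρ)
    obtain ⟨T, hAd⟩ := G1.exists_fan h4 hA hA0 blk (fun j => D (blk j))
    rw [← hms, hFv (ms blk ρ) _ ⟨n, blk, _, T, ρ, hb, fun j => hD _, G1.gcd_const blk hb D, hAd,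
      hρ, rfl, rfl⟩, T6.val_generic h1 he₀ hk hT hs hb (fun j => hD _) (G1.gcd_const blk hb D) hAd hρ
      hgenR, hnodes]
  · intro n blk N hb hN hG T hAd ρ hρ
    rw [T6.val_iff e₀ hs hN]
    exact hFv _ _ ⟨n, blk, N, T, ρ, hb, hN, hG, hAd, hρ, rfl, rfl⟩

end It

end Mono
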